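import Pool.Agent.Lib.helper15.GH3

set_option autoImplicit false

open Set

namespace Pool.Agent.Results.MP_c3dba2_gt.Implication

variable {X Y : Type} [MetricSpace X] [MetricSpace Y]

/-- Both projections of `S` are onto. -/
def IsCorr (S : Set (X × Y)) : Prop := (∀ x, ∃ y, (x, y) ∈ S) ∧ ∀ y, ∃ x, (x, y) ∈ S

/-- The distortion of `S`. -/
noncomputable def dis (S : Set (X × Y)) : ℝ :=
  sSup {r | ∃ p ∈ S, ∃ q ∈ S, r = |dist p.1 q.1 - dist p.2 q.2|}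

/-- The Gromov-Hausdorff distance, half the infimum of the distortions of correspondences. -/
noncomputable def dGH (X Y : Type) [MetricSpace X] [MetricSpace Y] : ℝ :=
  (1 / 2) * sInf (dis '' {S : Set (X × Y) | IsCorr S})

/-- An optimal correspondence. -/
def IsOptimal (S : Set (X × Y)) : Prop := IsCorr S ∧ dis S = 2 * dGH X Y

/-- The conclusion of (C) for one triple of spaces. -/
def CFor (X₁ X₂ X₃ : Type) [MetricSpace X₁] [MetricSpace X₂] [MetricSpace X₃] : Prop :=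
  ∃ R : Set (X₁ × X₂ × X₃), IsOptimal ((fun r => (r.1, r.2.1)) '' R) ∧
    IsOptimal ((fun r => (r.1, r.2.2)) '' R) ∧ IsOptimal ((fun r => (r.2.1, r.2.2)) '' R)

/-- The conclusion of (H) for one triple of spaces. -/
def HFor (X₁ X₂ X₃ : Type) [MetricSpace X₁] [MetricSpace X₂] [MetricSpace X₃] : Prop :=
  ∃ (Z : Type) (_ : MetricSpace Z) (_ : CompactSpace Z) (φ₁ : X₁ → Z) (φ₂ : X₂ → Z) (φ₃ : X₃ → Z),
    Isometry φ₁ ∧ Isometry φ₂ ∧ Isometry φ₃ ∧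
    Metric.hausdorffDist (range φ₁) (range φ₂) = dGH X₁ X₂ ∧
    Metric.hausdorffDist (range φ₁) (range φ₃) = dGH X₁ X₃ ∧
    Metric.hausdorffDist (range φ₂) (range φ₃) = dGH X₂ X₃

/-- Statement (C). -/
def StatementC : Prop :=
  ∀ (X₁ X₂ X₃ : Type) [MetricSpace X₁] [MetricSpace X₂] [MetricSpace X₃] [CompactSpace X₁]
    [CompactSpace X₂] [CompactSpace X₃] [Nonempty X₁] [Nonempty X₂] [Nonempty X₃], CFor X₁ X₂ X₃

/-- Statement (H). -/
def StatementH : Prop :=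
  ∀ (X₁ X₂ X₃ : Type) [MetricSpace X₁] [MetricSpace X₂] [MetricSpace X₃] [CompactSpace X₁]
    [CompactSpace X₂] [CompactSpace X₃] [Nonempty X₁] [Nonempty X₂] [Nonempty X₃], HFor X₁ X₂ X₃

open Pool.Agent.Lib.helper15.GH3

lemma le_dis [Finite X] [Finite Y] {S : Set (X × Y)} {p q : X × Y} (hp : p ∈ S) (hq : q ∈ S) :
    |dist p.1 q.1 - dist p.2 q.2| ≤ dis S :=
  le_csSup (((finite_range fun z : (X × Y) × X × Y => |dist z.1.1 z.2.1 - dist z.1.2 z.2.2|).subset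
    (by rintro _ ⟨p, -, q, -, rfl⟩; exact ⟨(p, q), rfl⟩)).bddAbove) ⟨p, hp, q, hq, rfl⟩

lemma opt {D D' : Fin 4 → Fin 4 → ℤ} {h : Good D} {h' : Good D'} {σ : Fin 4 → Fin 4}
    (hs : σ.Surjective) (H0 : ∀ x y, |D x y - D' (σ x) (σ y)| ≤ 2)
    (H : ∀ f : Fin 4 → Fin 4, (∀ x y, |D x y - D' (f x) (f y)| ≤ 2) → f = σ)
    {S : Set (Sp D h × Sp D' h')} (hS : IsOptimal S) {x : Sp D h} {y : Sp D' h'}
    (hp : (x, y) ∈ S) : y = σ x := by
  refine rigid H hS.1.1 (fun p hp q hq => (le_dis hp hq).trans_lt ?_) hp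
  have : sInf (dis '' {S : Set (Sp D h × Sp D' h') | IsCorr S}) ≤ 2 := by
    refine csInf_le_of_le ⟨0, ?_⟩ ⟨{p | p.2 = σ p.1}, ⟨fun x => ⟨σ x, rfl⟩, fun y => ?_⟩, rfl⟩ ?_
    · rintro _ ⟨S, -, rfl⟩
      exact Real.sSup_nonneg (by rintro _ ⟨p, -, q, -, rfl⟩; exact abs_nonneg _)
    · obtain ⟨x, rfl⟩ := hs y; exact ⟨x, rfl⟩
    · refine Real.sSup_le ?_ zero_le_two
      rintro _ ⟨⟨a, _⟩, (rfl : _ = σ a), ⟨b, _⟩, (rfl : _ = σ b), rfl⟩
      show |(D a b : ℝ) - D' (σ a) (σ b)| ≤ 2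
      exact_mod_cast H0 a b
  rw [hS.2, dGH]
  push_cast
  linarith

lemma diag {D D' : Fin 3 → Fin 3 → ℤ} {h : Good D} {h' : Good D'}
    (H0 : ∀ x y, |D x y - D' x y| ≤ 2) (H1 : ∃ x y, |D x y - D' x y| = 2)
    (H : ∀ f : Fin 3 → Fin 3, (∀ x y, |D x y - D' (f x) (f y)| ≤ 1) → False) :
    dGH (Sp D h) (Sp D' h') = 1 ∧ IsOptimal (range fun x : Fin 3 => ((x, x) : Sp D h × Sp D' h')) := by
  have c : IsCorr (range fun x : Fin 3 => ((x, x) : Sp D h × Sp D' h')) :=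
    ⟨fun x => ⟨x, x, rfl⟩, fun x => ⟨x, x, rfl⟩⟩
  have e : dis (range fun x : Fin 3 => ((x, x) : Sp D h × Sp D' h')) = 2 := by
    refine le_antisymm (Real.sSup_le ?_ zero_le_two) ?_
    · rintro _ ⟨_, ⟨a, rfl⟩, _, ⟨b, rfl⟩, rfl⟩
      show |(D a b : ℝ) - D' a b| ≤ 2
      exact_mod_cast H0 a b
    · obtain ⟨a, b, e⟩ := H1
      refine le_trans ?_ (le_dis (mem_range_self a) (mem_range_self b))
      show 2 ≤ |(D a b : ℝ) - D' a b|
      exact_mod_cast e.ge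
  have : sInf (dis '' {S : Set (Sp D h × Sp D' h') | IsCorr S}) = 2 := by
    refine IsLeast.csInf_eq ⟨⟨_, c, e⟩, ?_⟩
    rintro _ ⟨S, hS, rfl⟩
    by_contra k
    choose f hf using hS.1
    refine H f fun a b => Int.lt_add_one_iff.1 ?_
    have : |(D a b : ℝ) - D' (f a) (f b)| < 2 := (le_dis (hf a) (hf b)).trans_lt (not_le.1 k)
    exact_mod_cast this
  refine ⟨by rw [dGH, this]; norm_num, c, by rw [e, dGH, this]; norm_num⟩

theorem result :
    (StatementC → StatementH) ∧ ¬ StatementC ∧ ¬ StatementH ∧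
      ∃ (X₁ X₂ X₃ : Type) (_ : MetricSpace X₁) (_ : MetricSpace X₂) (_ : MetricSpace X₃),
        CompactSpace X₁ ∧ CompactSpace X₂ ∧ CompactSpace X₃ ∧
        Nonempty X₁ ∧ Nonempty X₂ ∧ Nonempty X₃ ∧ CFor X₁ X₂ X₃ ∧ ¬ HFor X₁ X₂ X₃ := by
  have nC : ¬ StatementC := fun H => by
    obtain ⟨R, h1, h2, h3⟩ := H (Sp _ b1) (Sp _ b2) (Sp _ b3)
    obtain ⟨_, ⟨x, y, z⟩, hr, e⟩ := h1.1.1 (0 : Fin 4)
    obtain rfl : x = (0 : Fin 4) := congrArg Prod.fst e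
    have e1 := opt Function.surjective_id (by decide) r12 h1 ⟨_, hr, rfl⟩
    have e2 := opt (by decide) (by decide) r13 h2 ⟨_, hr, rfl⟩
    have e3 := opt Function.surjective_id (by decide) r23 h3 ⟨_, hr, rfl⟩
    exact absurd (e2.symm.trans (e3.trans e1)) (show sw 0 ≠ 0 by decide)
  obtain ⟨g1, o1⟩ := diag (h := a1) (h' := a2) (by decide) (by decide) (by decide)
  obtain ⟨g2, o2⟩ := diag (h := a1) (h' := a3) (by decide) (by decide) (by decide)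
  obtain ⟨g3, o3⟩ := diag (h := a2) (h' := a3) (by decide) (by decide) (by decide)
  have nH : ¬ HFor (Sp _ a1) (Sp _ a2) (Sp _ a3) := fun ⟨Z, _, _, φ₁, φ₂, φ₃, h1, h2, h3, e1, e2, e3⟩ =>
    noH h1 h2 h3 (e1.trans g1).le (e2.trans g2).le (e3.trans g3).le
  refine ⟨fun h => absurd h nC, nC, fun h => nH (h _ _ _), Sp _ a1, Sp _ a2, Sp _ a3, inferInstance,
    inferInstance, inferInstance, inferInstance, inferInstance, inferInstance, inferInstance,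
    inferInstance, inferInstance, ⟨range fun x : Fin 3 => (x, x, x), ?_, ?_, ?_⟩, nH⟩ <;>
    rw [← range_comp] <;> assumption

end Pool.Agent.Results.MP_c3dba2_gt.Implication
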